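import Pool.Agent.Q83.WG.L
import Pool.Agent.H295R3.Hoheisel

/-!
# Waring's problem with almost all coefficients, prime variables and `2 k + 1` summands

Let `P₁, ..., Pₛ` be sets of natural numbers with at least `c h / log z` elements in every interval
`(z, z + h]`, `z ^ (1 - δ) ≤ h ≤ z / 2` (for instance the primes), and let `κ₁, ..., κₛ ≥ 1` be real
numbers with `q = 1 / κ₁ + ... + 1 / κₛ > 2`. For almost all `α ∈ (0, ∞)ˢ` every large real number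
`N` is within `N ^ (- γ)` of at least `N ^ (q - 1 - γ - ε)` values `α₁ x₁ ^ κ₁ + ... + αₛ xₛ ^ κₛ`
with `xᵢ ∈ Pᵢ`, for all `γ < q / 2 - 1`. For `κᵢ = k` and `s = 2 k + 1` this is the metric form,
with prime variables, of the bound `G (k) ≤ 2 k + 1`.
-/

set_option autoImplicit false

open MeasureTheory Filter Topology

namespace Pool.Agent.Results.MP_efcac8_nt.AlmostAllCoefficients

/-- The set `P` of natural numbers has at least `c h / log z` elements in `(z, z + h]` whenever `z`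
is large and `z ^ (1 - δ) ≤ h ≤ z / 2`, for some `δ ∈ (0, 1)` and `c > 0`. -/
def ManyInIntervals (P : Set ℕ) : Prop :=
  ∃ δ c z₀ : ℝ, 0 < δ ∧ δ < 1 ∧ 0 < c ∧ 1 < z₀ ∧
    ∀ z h : ℝ, z₀ ≤ z → z ^ (1 - δ) ≤ h → h ≤ z / 2 →
      c * h / Real.log z ≤ ({x : ℕ | x ∈ P ∧ z < x ∧ (x : ℝ) ≤ z + h}.ncard : ℝ)

lemma ncard_eq (P : Set ℕ) {z h : ℝ} (hz : 0 ≤ z) (hh : 0 ≤ h) :
    {x : ℕ | x ∈ P ∧ z < x ∧ (x : ℝ) ≤ z + h}.ncard = (Pool.Agent.Q83.WG.J P z (z + h)).card := by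
  rw [← Set.ncard_coe_finset]
  congr 1
  ext x
  rw [Finset.mem_coe, Pool.Agent.Q83.WG.mem_J hz (by linarith)]
  simp only [Set.mem_ofPred_eq]
  tauto

lemma dense_of {P : Set ℕ} (hP : ManyInIntervals P) : Pool.Agent.Q83.WG.Dense P := by
  obtain ⟨δ, c, z₀, h1, h2, h3, h4, h⟩ := hP
  refine ⟨δ, c, z₀, h1, h2, h3, h4, fun z t hz ht1 ht2 => ?_⟩
  have hz0 : 0 < z := by linarith
  have ht0 : 0 ≤ t := (Real.rpow_nonneg hz0.le _).trans ht1
  rw [← ncard_eq P hz0.le ht0]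
  exact h z t hz ht1 ht2

/-- The primes (Hoheisel). -/
theorem primes : ManyInIntervals {p : ℕ | p.Prime} := by
  obtain ⟨δ, η, hδ0, hδ1, hη, X₀, hX₀, H⟩ := Pool.Agent.H295R3.D.hoheisel
  have hlim : ∀ᶠ z : ℝ in atTop, 2 ≤ z ^ (δ / 2) :=
    (tendsto_rpow_atTop (by linarith : 0 < δ / 2)).eventually_ge_atTop 2
  have hlim2 : ∀ᶠ z : ℝ in atTop, 2 ≤ z ^ (1 - δ / 2) :=
    (tendsto_rpow_atTop (by linarith : 0 < 1 - δ / 2)).eventually_ge_atTop 2
  obtain ⟨z₁, hz₁⟩ := eventually_atTop.1 (hlim.and hlim2)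
  refine ⟨δ / 2, η / 2, max z₁ (X₀ + 4), by linarith, by linarith, by linarith, ?_, ?_⟩
  · have : (4 : ℝ) ≤ X₀ + 4 := by have : (0 : ℝ) ≤ X₀ := Nat.cast_nonneg _
                                  linarith
    exact lt_of_lt_of_le (by linarith) (le_max_right _ _)
  · intro z h hz h1 h2
    have hzX : (X₀ : ℝ) + 4 ≤ z := (le_max_right _ _).trans hz
    obtain ⟨hz2, hz3⟩ := hz₁ z ((le_max_left _ _).trans hz)
    have hX0 : (0 : ℝ) ≤ X₀ := Nat.cast_nonneg _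
    have hz0 : 0 < z := by linarith
    have hh2 : 2 ≤ h := hz3.trans h1
    have hh0 : 0 ≤ h := by linarith
    set X : ℕ := ⌊z⌋₊ with hX
    have hXz : (X : ℝ) ≤ z := Nat.floor_le hz0.le
    have hzX' : z < X + 1 := Nat.lt_floor_add_one z
    have hXX : X₀ ≤ X := by
      have : (X₀ : ℝ) < X + 1 := by linarith
      exact_mod_cast (by exact_mod_cast this : X₀ < X + 1) |> Nat.lt_succ_iff.1
    have hle : X ≤ ⌊z + h⌋₊ := Nat.floor_mono (by linarith)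
    set Y : ℕ := ⌊z + h⌋₊ - X with hY
    have hXY : X + Y = ⌊z + h⌋₊ := by omega
    have hXYr : (X : ℝ) + Y = (⌊z + h⌋₊ : ℝ) := by exact_mod_cast hXY
    have a1 : (⌊z + h⌋₊ : ℝ) ≤ z + h := Nat.floor_le (by linarith)
    have a2 : z + h < ⌊z + h⌋₊ + 1 := Nat.lt_floor_add_one _
    have hYh : h / 2 ≤ Y := by linarith
    have hYX : Y ≤ X := by
      have : (Y : ℝ) ≤ X := by linarith
      exact_mod_cast this
    have hX4 : (1 : ℝ) < X := by linarith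
    have hpow : (X : ℝ) ^ (1 - δ) ≤ Y := by
      have b1 : (X : ℝ) ^ (1 - δ) ≤ z ^ (1 - δ) :=
        Real.rpow_le_rpow (by linarith) hXz (by linarith)
      have b2 : z ^ (1 - δ) * 2 ≤ z ^ (1 - δ / 2) := by
        have : z ^ (1 - δ / 2) = z ^ (1 - δ) * z ^ (δ / 2) := by
          rw [← Real.rpow_add hz0]; congr 1; ring
        rw [this]
        exact mul_le_mul_of_nonneg_left hz2 (Real.rpow_nonneg hz0.le _)
      linarith
    have hfin := H X Y hXX hpow hYX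
    rw [ncard_eq _ hz0.le hh0]
    have hJ : Pool.Agent.Q83.WG.J {p : ℕ | p.Prime} z (z + h) =
        (Finset.Ioc X (X + Y)).filter Nat.Prime := by
      ext x
      rw [Pool.Agent.Q83.WG.mem_J hz0.le (by linarith), Finset.mem_filter, Finset.mem_Ioc, hXY, hX,
        Nat.floor_lt hz0.le, Nat.le_floor_iff (by linarith), Set.mem_ofPred_eq, and_assoc]
    rw [hJ]
    refine le_trans ?_ hfin
    have hlogX : 0 < Real.log X := Real.log_pos hX4
    have hlog : Real.log X ≤ Real.log z := Real.log_le_log (by linarith) hXz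
    rw [div_le_div_iff₀ (by linarith) hlogX]
    have : η / 2 * h ≤ η * Y := by nlinarith
    calc η / 2 * h * Real.log X ≤ η * Y * Real.log X := by gcongr
      _ ≤ η * Y * Real.log z := by gcongr

/-- All natural numbers. -/
theorem univ : ManyInIntervals Set.univ := by
  obtain ⟨δ, c, z₀, h1, h2, h3, h4, h⟩ := Pool.Agent.Q83.WG.dense_univ
  refine ⟨δ, c, z₀, h1, h2, h3, h4, fun z t hz ht1 ht2 => ?_⟩
  have hz0 : 0 < z := by linarith
  have ht0 : 0 ≤ t := (Real.rpow_nonneg hz0.le _).trans ht1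
  rw [ncard_eq _ hz0.le ht0]
  exact h z t hz ht1 ht2

/-- Finitely many solutions. -/
lemma finite_sol {ι : Type} [Fintype ι] (P : ι → Set ℕ) (κ : ι → ℝ) (hκ : ∀ i, 1 ≤ κ i)
    (α : ι → ℝ) (hα : ∀ i, 0 < α i) (B : ℝ) :
    {x : ι → ℕ | (∀ i, x i ∈ P i ∧ 0 < x i) ∧ ∑ i, α i * (x i : ℝ) ^ κ i ≤ B}.Finite := by
  refine (Set.Finite.pi' (fun i => Set.finite_Iic ⌊B / α i⌋₊)).subset ?_
  rintro x ⟨hx, hB⟩ i
  have h1 : α i * (x i : ℝ) ^ κ i ≤ B := by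
    refine le_trans ?_ hB
    exact Finset.single_le_sum (f := fun i => α i * (x i : ℝ) ^ κ i)
      (fun j _ => mul_nonneg (hα j).le (Real.rpow_nonneg (Nat.cast_nonneg _) _)) (Finset.mem_univ i)
  have hx1 : (1 : ℝ) ≤ x i := by exact_mod_cast (hx i).2
  have h2 : (x i : ℝ) ≤ (x i : ℝ) ^ κ i := by
    calc (x i : ℝ) = (x i : ℝ) ^ (1 : ℝ) := (Real.rpow_one _).symm
      _ ≤ (x i : ℝ) ^ κ i := Real.rpow_le_rpow_of_exponent_le hx1 (hκ i)
  have h3 : (x i : ℝ) ≤ B / α i := by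
    rw [le_div_iff₀ (hα i)]
    nlinarith [hα i]
  exact Nat.le_floor h3

/-- Main statement for one family of exponents. -/
theorem main (ι : Type) [Fintype ι] (P : ι → Set ℕ) (hP : ∀ i, ManyInIntervals (P i)) (κ : ι → ℝ)
    (hκ : ∀ i, 1 ≤ κ i) (hsum : 2 < ∑ i, (κ i)⁻¹) :
    ∀ᵐ α : ι → ℝ, (∀ i, 0 < α i) →
      (∀ γ : ℝ, 0 ≤ γ → γ < (∑ i, (κ i)⁻¹) / 2 - 1 → ∀ ε : ℝ, 0 < ε → ∀ᶠ N : ℝ in atTop,
        N ^ ((∑ i, (κ i)⁻¹) - 1 - γ - ε) ≤ ({x : ι → ℕ | (∀ i, x i ∈ P i ∧ 0 < x i) ∧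
          |∑ i, α i * (x i : ℝ) ^ κ i - N| ≤ N ^ (-γ)}.ncard : ℝ)) ∧
      ∀ ε : ℝ, 0 < ε → ∀ᶠ n : ℕ in atTop,
        (n : ℝ) ^ ((∑ i, (κ i)⁻¹) - 1 - ε) ≤ ({x : ι → ℕ | (∀ i, x i ∈ P i ∧ 0 < x i) ∧
          ⌊∑ i, α i * (x i : ℝ) ^ κ i⌋ = n}.ncard : ℝ) := by
  classical
  filter_upwards [Pool.Agent.Q83.WG.coef_main P (fun i => dense_of (hP i)) κ hκ hsum] with α hα hpos
  have hA := hα hpos
  set q : ℝ := ∑ i, (κ i)⁻¹ with hq
  constructor
  · intro γ hγ0 hγ ε hε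
    filter_upwards [hA γ hγ0 hγ ε hε] with N hN
    obtain ⟨T, hT1, hT2⟩ := hN
    refine hT1.trans ?_
    rw [Nat.cast_le, ← Set.ncard_coe_finset]
    apply Set.ncard_le_ncard
    · intro x hx
      exact hT2 x hx
    · refine (finite_sol P κ hκ α hpos (N + N ^ (-γ))).subset ?_
      rintro x ⟨h1, h2⟩
      refine ⟨h1, ?_⟩
      have := (abs_le.1 h2).2
      linarith
  · intro ε hε
    set ε' : ℝ := min ε (1 / 2) with hε'
    have hε'0 : 0 < ε' := lt_min hε (by norm_num)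
    have hε'1 : ε' ≤ 1 / 2 := min_le_right _ _
    have hε'2 : ε' ≤ ε := min_le_left _ _
    set γ : ℝ := min (ε' / 2) ((q / 2 - 1) / 2) with hγ
    have hγ0 : 0 < γ := lt_min (by linarith) (by linarith)
    have hγ1 : γ ≤ ε' / 2 := min_le_left _ _
    have hγ2 : γ < q / 2 - 1 := lt_of_le_of_lt (min_le_right _ _) (by linarith)
    have h1 := hA γ hγ0.le hγ2 (ε' / 2) (by linarith)
    have h2 : ∀ᶠ N : ℝ in atTop, N ^ (-γ) ≤ 1 / 4 :=
      (tendsto_rpow_neg_atTop hγ0).eventually_le_const (by norm_num)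
    have h3 : Tendsto (fun n : ℕ => (n : ℝ) + 1 / 2) atTop atTop :=
      tendsto_atTop_add_const_right _ _ tendsto_natCast_atTop_atTop
    filter_upwards [h3.eventually h1, h3.eventually h2, eventually_ge_atTop 1] with n hn1 hn2 hn3
    obtain ⟨T, hT1, hT2⟩ := hn1
    have hn : (1 : ℝ) ≤ n := by exact_mod_cast hn3
    have e1 : (n : ℝ) ^ (q - 1 - ε) ≤ ((n : ℝ) + 1 / 2) ^ (q - 1 - γ - ε' / 2) := by
      calc (n : ℝ) ^ (q - 1 - ε) ≤ (n : ℝ) ^ (q - 1 - γ - ε' / 2) :=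
            Real.rpow_le_rpow_of_exponent_le hn (by linarith)
        _ ≤ ((n : ℝ) + 1 / 2) ^ (q - 1 - γ - ε' / 2) :=
            Real.rpow_le_rpow (by linarith) (by linarith) (by linarith)
    refine (e1.trans hT1).trans ?_
    rw [Nat.cast_le, ← Set.ncard_coe_finset]
    apply Set.ncard_le_ncard
    · intro x hx
      obtain ⟨hx1, hx2⟩ := hT2 x hx
      refine ⟨hx1, ?_⟩
      have h4 := abs_le.1 (hx2.trans hn2)
      rw [Int.floor_eq_iff]
      constructor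
      · push_cast; linarith [h4.1]
      · push_cast; linarith [h4.2]
    · refine (finite_sol P κ hκ α hpos (n + 1)).subset ?_
      rintro x ⟨h1, h2⟩
      refine ⟨h1, ?_⟩
      rw [Int.floor_eq_iff] at h2
      push_cast at h2
      linarith [h2.2]

/-- **Waring's problem for almost all coefficients.** (1) Let `P i`, `i ∈ ι`, be sets of natural
numbers with many elements in short intervals, `κ i ≥ 1` real numbers and `q = ∑ 1 / κ i > 2`. For
almost all `α ∈ (0, ∞)^ι`: for all `0 ≤ γ < q / 2 - 1`, `ε > 0` and every large real `N` there are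
at least `N ^ (q - 1 - γ - ε)` tuples `x` with `x i ∈ P i` and
`|∑ α i (x i) ^ κ i - N| ≤ N ^ (- γ)`; and every large integer `n` is the integer part of
`∑ α i (x i) ^ κ i` for at least `n ^ (q - 1 - ε)` such tuples. (2) The primes are such a set.
(3) Hence for every `k ≥ 1` and almost all `α ∈ (0, ∞)^(2 k + 1)`: every large real `N` is within
`N ^ (- γ)`, `γ < 1 / (2 k)`, of at least `N ^ (1 + 1 / k - γ - ε)` values
`∑ α i (p i) ^ k` with primes `p i`, and every large integer `n` is the integer part of at least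
`n ^ (1 + 1 / k - ε)` such values (counted by tuples of primes). -/
theorem result :
    (∀ (ι : Type) [Fintype ι] (P : ι → Set ℕ) (_ : ∀ i, ManyInIntervals (P i)) (κ : ι → ℝ)
      (_ : ∀ i, 1 ≤ κ i) (_ : 2 < ∑ i, (κ i)⁻¹),
      ∀ᵐ α : ι → ℝ, (∀ i, 0 < α i) →
        (∀ γ : ℝ, 0 ≤ γ → γ < (∑ i, (κ i)⁻¹) / 2 - 1 → ∀ ε : ℝ, 0 < ε → ∀ᶠ N : ℝ in atTop,
          N ^ ((∑ i, (κ i)⁻¹) - 1 - γ - ε) ≤ ({x : ι → ℕ | (∀ i, x i ∈ P i ∧ 0 < x i) ∧
            |∑ i, α i * (x i : ℝ) ^ κ i - N| ≤ N ^ (-γ)}.ncard : ℝ)) ∧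
        ∀ ε : ℝ, 0 < ε → ∀ᶠ n : ℕ in atTop,
          (n : ℝ) ^ ((∑ i, (κ i)⁻¹) - 1 - ε) ≤ ({x : ι → ℕ | (∀ i, x i ∈ P i ∧ 0 < x i) ∧
            ⌊∑ i, α i * (x i : ℝ) ^ κ i⌋ = n}.ncard : ℝ)) ∧
    ManyInIntervals {p : ℕ | p.Prime} ∧
    ∀ k : ℕ, 1 ≤ k → ∀ᵐ α : Fin (2 * k + 1) → ℝ, (∀ i, 0 < α i) →
      (∀ γ : ℝ, 0 ≤ γ → γ < 1 / (2 * k) → ∀ ε : ℝ, 0 < ε → ∀ᶠ N : ℝ in atTop,
        N ^ (1 + 1 / (k : ℝ) - γ - ε) ≤ ({p : Fin (2 * k + 1) → ℕ | (∀ i, (p i).Prime) ∧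
          |∑ i, α i * (p i : ℝ) ^ k - N| ≤ N ^ (-γ)}.ncard : ℝ)) ∧
      ∀ ε : ℝ, 0 < ε → ∀ᶠ n : ℕ in atTop,
        (n : ℝ) ^ (1 + 1 / (k : ℝ) - ε) ≤ ({p : Fin (2 * k + 1) → ℕ | (∀ i, (p i).Prime) ∧
          ⌊∑ i, α i * (p i : ℝ) ^ k⌋ = n}.ncard : ℝ) := by
  refine ⟨fun ι _ P hP κ hκ hsum => main ι P hP κ hκ hsum, primes, fun k hk => ?_⟩
  have hk0 : (0 : ℝ) < k := by exact_mod_cast hk
  have hs : ∑ _i : Fin (2 * k + 1), ((k : ℝ))⁻¹ = 2 + 1 / (k : ℝ) := by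
    rw [Finset.sum_const, Finset.card_univ, Fintype.card_fin, nsmul_eq_mul]
    push_cast
    field_simp
  have hm := main (Fin (2 * k + 1)) (fun _ => {p : ℕ | p.Prime}) (fun _ => primes)
    (fun _ => (k : ℝ)) (fun _ => by exact_mod_cast hk) (by rw [hs]; have : 0 < 1 / (k : ℝ) := by positivity
                                                           linarith)
  rw [hs] at hm
  filter_upwards [hm] with α hα hpos
  obtain ⟨h1, h2⟩ := hα hpos
  have key : ∀ p : Fin (2 * k + 1) → ℕ, (∀ i, (p i).Prime ∧ 0 < p i) ↔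
      ∀ i, (p i).Prime := by
    intro p
    constructor
    · exact fun h i => (h i).1
    · exact fun h i => ⟨h i, (h i).pos⟩
  simp only [Real.rpow_natCast] at h1 h2
  simp only [key] at h1 h2
  constructor
  · intro γ hγ0 hγ ε hε
    have h3 : γ < (2 + 1 / (k : ℝ)) / 2 - 1 := by
      have : (2 + 1 / (k : ℝ)) / 2 - 1 = 1 / (2 * k) := by field_simp; ring
      rw [this]; exact hγ
    filter_upwards [h1 γ hγ0 h3 ε hε] with N hN
    refine le_trans (le_of_eq ?_) hN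
    congr 1
    ring
  · intro ε hε
    filter_upwards [h2 ε hε] with n hn
    refine le_trans (le_of_eq ?_) hn
    congr 1
    ring

end Pool.Agent.Results.MP_efcac8_nt.AlmostAllCoefficients
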