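import Pool.Agent.U384.WGE.C

/-!
# `2k + 1` powers (of primes) suffice for almost all exponents near `k`

Waring's problem with real exponents asks for the representation of all large numbers `N` by the sums
`x₁^κ₁ + … + x_s^κ_s` with natural numbers `x_i` and given real exponents `κ_i ≥ 1` (coefficients
one), up to an error less than one. We prove that for almost all exponent vectors with
`∑ 1/κ_i > 2` this is possible, with primes `x_i`, with a power saving error, and with the expected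
number of solutions up to a factor `N^(-ε)`. For `s = 2k + 1` exponents the condition holds if all
`κ_i < k + 1/2`.
-/

set_option autoImplicit false

namespace Pool.Agent.Results.MP_efcac8_nt.AlmostAllExponents

open MeasureTheory Filter

/-- For some `δ` in `(0,1)` and `c > 0` the set `P` has at least `c h / log z` elements in the
interval `(z, z + h]` for all large `z` and all `h` with `z^(1-δ) ≤ h ≤ z/2`. -/
def Thick (P : Set ℕ) : Prop :=
  ∃ δ c z₀ : ℝ, 0 < δ ∧ δ < 1 ∧ 0 < c ∧ ∀ z h : ℝ, z₀ ≤ z → z ^ (1 - δ) ≤ h → h ≤ z / 2 →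
    c * h / Real.log z ≤ ({x : ℕ | x ∈ P ∧ z < x ∧ (x : ℝ) ≤ z + h}.ncard : ℝ)

lemma card_J {P : Set ℕ} {z h : ℝ} (hz : 0 ≤ z) (hh : 0 ≤ h) :
    ({x : ℕ | x ∈ P ∧ z < x ∧ (x : ℝ) ≤ z + h}.ncard) = (Q83.WG.J P z (z + h)).card := by
  rw [← Set.ncard_coe_finset]
  congr 1
  ext x
  rw [Finset.mem_coe, Q83.WG.mem_J hz (by linarith), Set.mem_setOf_eq]
  tauto

lemma thick_iff (P : Set ℕ) : Thick P ↔ Q83.WG.Dense P := by
  constructor
  · rintro ⟨δ, c, z0, hδ, hδ1, hc, h⟩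
    refine ⟨δ, c, max z0 2, hδ, hδ1, hc, lt_of_lt_of_le (by norm_num) (le_max_right _ _), ?_⟩
    intro z y hz h1 h2
    have hz2 : (2 : ℝ) ≤ z := (le_max_right _ _).trans hz
    have hy : 0 ≤ y := le_trans (by positivity) h1
    rw [← card_J (by linarith) hy]
    exact h z y ((le_max_left _ _).trans hz) h1 h2
  · rintro ⟨δ, c, z0, hδ, hδ1, hc, hz0, h⟩
    refine ⟨δ, c, z0, hδ, hδ1, hc, ?_⟩
    intro z y hz h1 h2
    have hz2 : (1 : ℝ) ≤ z := hz0.le.trans hz
    have hy : 0 ≤ y := le_trans (by positivity) h1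
    rw [card_J (by linarith) hy]
    exact h z y hz h1 h2

/-- **Waring's problem with almost all real exponents.**
1. Let `k ≥ 1` and `s = 2k + 1`. For almost all vectors `(κ_1, …, κ_s)` of reals with
   `1 ≤ κ_i < k + 1/2` every large natural number `n` is the integer part of
   `p_1^κ_1 + … + p_s^κ_s` with primes `p_i`.
2. Let `P_1, …, P_s` be thick sets of natural numbers (for instance all natural numbers, or the
   primes). For almost all vectors `κ` with `κ_i ≥ 1` and `∑ 1/κ_i > 2`: for all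
   `0 ≤ γ < (∑ 1/κ_i)/2 - 1` and `ε > 0` and all large real `N`, the inequality
   `|∑ p_i^κ_i - N| ≤ N^(-γ)` has at least `N^(∑ 1/κ_i - 1 - γ - ε)` solutions with `p_i ∈ P_i`.
3. The set of the primes is thick, and so is the set of all natural numbers. -/
theorem result :
    (∀ k : ℕ, 1 ≤ k → ∀ᵐ κ : Fin (2 * k + 1) → ℝ, (∀ i, 1 ≤ κ i ∧ κ i < k + 1 / 2) →
      ∀ᶠ n : ℕ in atTop, ∃ p : Fin (2 * k + 1) → ℕ, (∀ i, (p i).Prime) ∧
        ⌊∑ i, (p i : ℝ) ^ κ i⌋ = (n : ℤ)) ∧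
    (∀ (s : ℕ) (P : Fin s → Set ℕ), (∀ i, Thick (P i)) →
      ∀ᵐ κ : Fin s → ℝ, (∀ i, 1 ≤ κ i) → 2 < ∑ i, 1 / κ i →
        ∀ γ ε : ℝ, 0 ≤ γ → γ < (∑ i, 1 / κ i) / 2 - 1 → 0 < ε → ∀ᶠ N : ℝ in atTop,
          ∃ T : Finset (Fin s → ℕ),
            (∀ p ∈ T, (∀ i, p i ∈ P i) ∧ |∑ i, (p i : ℝ) ^ κ i - N| ≤ N ^ (-γ)) ∧
            N ^ ((∑ i, 1 / κ i) - 1 - γ - ε) ≤ (T.card : ℝ)) ∧
    (Thick {p : ℕ | p.Prime} ∧ Thick Set.univ) := by
  refine ⟨fun k hk => ?_, fun s P hP => ?_,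
    (thick_iff _).mpr U384.WGM.primes_dense, (thick_iff _).mpr Q83.WG.dense_univ⟩
  · have hk0 : (0 : ℝ) < k := by exact_mod_cast hk
    have h := U384.WGE.floor_exp (2 * k + 1) (fun _ => {p : ℕ | p.Prime})
      (fun _ => U384.WGM.primes_dense)
    filter_upwards [h] with κ hκ hb
    refine hκ (fun i => (hb i).1) ?_
    have h1 : ∀ i, ((k : ℝ) + 1 / 2)⁻¹ < (κ i)⁻¹ := fun i =>
      inv_strictAnti₀ (by linarith [(hb i).1]) (hb i).2
    have h2 : ∑ _i : Fin (2 * k + 1), ((k : ℝ) + 1 / 2)⁻¹ < ∑ i, (κ i)⁻¹ :=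
      Finset.sum_lt_sum_of_nonempty Finset.univ_nonempty fun i _ => h1 i
    refine lt_of_le_of_lt (le_of_eq ?_) h2
    rw [Finset.sum_const, Finset.card_univ, Fintype.card_fin, nsmul_eq_mul]
    push_cast
    field_simp
  · simp only [one_div]
    filter_upwards [U384.WGE.exp_main P (fun i => (thick_iff _).mp (hP i))]
      with κ hκ h1 h2 γ ε hγ hγ1 hε
    filter_upwards [hκ h1 h2 γ hγ hγ1 ε hε] with N hN
    obtain ⟨T, hT1, hT2⟩ := hN
    exact ⟨T, fun p hp => ⟨fun i => ((hT2 p hp).1 i).1, (hT2 p hp).2⟩, hT1⟩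

end Pool.Agent.Results.MP_efcac8_nt.AlmostAllExponents
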