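import Mathlib
import Pool.Agent.U518.WS.H

/-!
# `2k + 1` shifted `k`-th powers suffice for almost all shifts

Waring's problem with shifts asks for the representation of large numbers `N` by the sums
`(x₁ + θ₁)^k + … + (x_s + θ_s)^k` with natural numbers `x_i` and given real shifts `θ_i`. We prove
that for almost all `θ ∈ ℝ^s` the conjectured number `s ≥ 2k + 1` of summands is enough, with the
expected order of magnitude for the number of solutions.
-/

set_option autoImplicit false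

namespace Pool.Agent.Results.MP_efcac8_nt.AlmostAllShifts

open MeasureTheory Filter

/-- **Waring's problem with shifts in `2k + 1` variables.** Let `k ≥ 2` and `s ≥ 2k + 1`. For almost all
`θ ∈ ℝ^s` (Lebesgue measure): every large natural number `n` is `⌊(x₁ + θ₁)^k + … + (x_s + θ_s)^k⌋` with
natural numbers `x_i` with `x_i + θ_i > 0`. More precisely, for `0 ≤ τ < s / (2k) - 1` there is `c > 0`
(independent of `θ`) such that for almost all `θ`, for all large real numbers `N` and all `δ` with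
`N^(-τ) ≤ δ ≤ 1`, the inequality `|(x₁ + θ₁)^k + … + (x_s + θ_s)^k - N| < δ` has at least
`c δ N^(s/k - 1)` solutions in natural numbers `x_i` with `x_i + θ_i > 0`. -/
theorem result (k s : ℕ) (hk : 2 ≤ k) (hs : 2 * k + 1 ≤ s) :
    (∀ᵐ θ : Fin s → ℝ, ∀ᶠ n : ℕ in atTop, ∃ x : Fin s → ℕ,
      (∀ i, 0 < (x i : ℝ) + θ i) ∧ ⌊∑ i, ((x i : ℝ) + θ i) ^ k⌋ = (n : ℤ)) ∧
    ∀ τ : ℝ, 0 ≤ τ → τ < (s : ℝ) / (2 * k) - 1 →
      ∃ c : ℝ, 0 < c ∧ ∀ᵐ θ : Fin s → ℝ, ∀ᶠ N : ℝ in atTop,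
        ∀ δ : ℝ, N ^ (-τ) ≤ δ → δ ≤ 1 → ∃ A : Finset (Fin s → ℕ),
          (∀ x ∈ A, (∀ i, 0 < (x i : ℝ) + θ i) ∧ |∑ i, ((x i : ℝ) + θ i) ^ k - N| < δ) ∧
            c * δ * N ^ ((s : ℝ) / k - 1) ≤ (A.card : ℝ) :=
  ⟨Pool.Agent.U518.WS.floor_form k s hk hs, fun τ hτ0 hτ => Pool.Agent.U518.WS.main k s hk hs τ hτ0 hτ⟩

end Pool.Agent.Results.MP_efcac8_nt.AlmostAllShifts
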