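import Mathlib
import Pool.Agent.U914.WP.GJ

/-!
# The asymptotic formula in Waring's problem with `2k + 1` summands, for almost all polynomials

Let `k ≥ 2`, let `a > 0` be fixed (for instance `a = 1`), and consider the integer sequence
`⌊f(1)⌋, ⌊f(2)⌋, …` where `f(x) = a x ^ k + θ_{k-1} x ^ (k-1) + … + θ_1 x`. We prove that for almost all
`θ ∈ ℝ ^ (k-1)` and every `s ≥ 2k + 1` the number of representations of `n` as a sum of `s` members of this
sequence is given by the expected main term with a power saving in the error term.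
-/

set_option autoImplicit false

namespace Pool.Agent.Results.MP_efcac8_nt.AsymptoticFormula

open MeasureTheory Filter

/-- **The asymptotic formula for almost all polynomials.** Let `k ≥ 2` and `a > 0`. There is `τ > 0` such that for
almost all `θ ∈ ℝ ^ (k-1)` (Lebesgue measure) the polynomial `f(x) = a x ^ k + θ_{k-1} x ^ (k-1) + … + θ_1 x` has
this property: for every `s ≥ 2k + 1` the number of representations `n = ⌊f(x₁)⌋ + … + ⌊f(x_s)⌋` with positive
integers `x_i` is `Γ(1 + 1/k) ^ s / (Γ(s/k) a ^ (s/k)) n ^ (s/k - 1)` with an error of at most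
`n ^ (s/k - 1 - τ)`, for all large `n`. -/
theorem result (k : ℕ) (hk : 2 ≤ k) (a : ℝ) (ha : 0 < a) :
    ∃ τ : ℝ, 0 < τ ∧ ∀ᵐ θ : Fin (k - 1) → ℝ, ∀ s : ℕ, 2 * k + 1 ≤ s → ∀ᶠ n : ℕ in atTop,
      |(({x : Fin s → ℕ | (∀ i, 0 < x i) ∧
          ∑ i, ⌊a * (x i : ℝ) ^ k + ∑ j : Fin (k - 1), θ j * (x i : ℝ) ^ ((j : ℕ) + 1)⌋ = (n : ℤ)}.ncard : ℕ) : ℝ) -
        Real.Gamma (1 + 1 / k) ^ s / (Real.Gamma (s / k) * a ^ ((s : ℝ) / k)) * (n : ℝ) ^ ((s : ℝ) / k - 1)| ≤
          (n : ℝ) ^ ((s : ℝ) / k - 1 - τ) := by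
  obtain ⟨d, rfl⟩ : ∃ d, k = d + 1 := ⟨k - 1, by omega⟩
  obtain ⟨τ, hτ, h⟩ := Pool.Agent.U914.WP.asym d (by omega) a ha
  refine ⟨τ, hτ, ?_⟩
  filter_upwards [h] with θ h s hs
  filter_upwards [h s hs] with n hn
  rw [Pool.Agent.U914.WP.SB_eq d s (by omega) a ha] at hn
  exact hn

end Pool.Agent.Results.MP_efcac8_nt.AsymptoticFormula
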